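import Mathlib
import Pool.Agent.TH497.PW.IntFlow
import Pool.Agent.TH362.FP.Pos
import Pool.Agent.Y335.FL.Main
import Pool.Agent.K3h83.FI.Ball

set_option autoImplicit false

/-!
# Nowhere-zero 5-flows and an excluded induced minor (MP_974d84_co)

Let `T` be the tree with 126 vertices and 64 leaves which consists of two complete binary trees of
depth five and an edge between their roots. Let `G` be a bridgeless multigraph such that no induced
minor of `G` is a graph of girth at least twelve with a spanning subgraph isomorphic to `T`. Then
`G` has a nowhere-zero 5-flow, and the characteristic polynomial of its bond matroid is positive at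
all integers `q ≥ 5`. (An induced minor arises by contractions of edges and deletions of vertices.)

A graph of this kind consists of `T` and of edges between leaves of different sides, so it has 126
vertices, it is bipartite with classes of 63 elements, and it contains the complete cubic tree of
radius five, with 94 vertices, as an induced subgraph. So the theorem applies to all bridgeless
graphs without an induced minor isomorphic to that tree (`inducedBall` below).

Proof. The class is closed under contractions (not under deletions of edges). Let `G` be a
counterexample with as few edges as possible. Circuits with at most eleven edges can be contracted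
(library `Y335/FL`), and so can one of two edges which form a cut; hence `G` has girth at least
twelve and all degrees are at least three (apart from isolated vertices). By `H173FL/Tree` the tree
`T` is a subgraph of `G`; the subgraph induced by its vertices has girth at least twelve.
-/

namespace Pool.Agent.Results.MP_974d84_co.ExcludedInducedTree

open Pool.Agent.TH497.PW Pool.Agent.K3h83.FI

variable {V E : Type}

/-- The edges with exactly one end in `X`. -/
def boundary [DecidableEq V] [Fintype E] (src dst : E → V) (X : Finset V) : Finset E :=
  Finset.univ.filter (fun e => ¬ (src e ∈ X ↔ dst e ∈ X))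

/-- Kirchhoff's law. -/
def IsFlow [DecidableEq V] [Fintype E] (src dst : E → V) (f : E → ℤ) : Prop :=
  ∀ v : V, ∑ e ∈ Finset.univ.filter (fun e => src e = v), f e
    = ∑ e ∈ Finset.univ.filter (fun e => dst e = v), f e

/-- The number of the components of the graph with the vertices `V` and the edges `A`. -/
noncomputable def components (src dst : E → V) (A : Finset E) : ℕ :=
  Nat.card (SimpleGraph.fromRel
    (fun u v : V => ∃ e ∈ A, src e = u ∧ dst e = v)).ConnectedComponent

/-- The rank of `A` in the cycle matroid of the graph. -/
noncomputable def cycleRank [Fintype V] (src dst : E → V) (A : Finset E) : ℕ :=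
  Fintype.card V - components src dst A

/-- The rank of `A` in the bond matroid of the graph (the dual of the cycle matroid). -/
noncomputable def bondRank [Fintype V] [Fintype E] [DecidableEq E] (src dst : E → V)
    (A : Finset E) : ℕ :=
  A.card + cycleRank src dst Aᶜ - cycleRank src dst Finset.univ

/-- The characteristic polynomial of the bond matroid at the integer `x`. -/
noncomputable def bondCharPoly [Fintype V] [Fintype E] [DecidableEq E] (src dst : E → V)
    (x : ℤ) : ℤ :=
  ∑ A : Finset E, (-1) ^ A.card * x ^ (bondRank src dst Finset.univ - bondRank src dst A)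

theorem isFlow_iff [DecidableEq V] [Fintype E] (src dst : E → V) (f : E → ℤ) :
    IsFlow src dst f ↔
      ∀ v, ∑ e, f e * ((if src e = v then 1 else 0) - (if dst e = v then 1 else 0)) = 0 := by
  unfold IsFlow
  refine forall_congr' fun v => ?_
  rw [Finset.sum_filter, Finset.sum_filter, ← sub_eq_zero, ← Finset.sum_sub_distrib]
  have : ∀ e, (if src e = v then f e else 0) - (if dst e = v then f e else 0)
      = f e * ((if src e = v then 1 else 0) - (if dst e = v then 1 else 0)) := by
    intro e
    by_cases h1 : src e = v <;> by_cases h2 : dst e = v <;> simp [h1, h2]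
  rw [Finset.sum_congr rfl (fun e _ => this e)]

theorem nzf [Fintype V] [DecidableEq V] [Fintype E] [DecidableEq E] (src dst : E → V)
    (h : Pool.Agent.TH676.Z.FlowOn src dst ∅ ∅) : NZF src dst := by
  obtain ⟨f, h1, _, h3⟩ := h
  refine ⟨f, fun e => h3 e (Finset.notMem_empty _) (Finset.notMem_empty _), fun x => ?_⟩
  rw [← h1 x]
  unfold Pool.Agent.TH676.Z.bd
  refine Finset.sum_congr rfl fun e _ => ?_
  unfold ic
  by_cases h4 : src e = x <;> by_cases h5 : dst e = x <;> simp [h4, h5]

theorem charPoly_pos [Fintype V] [DecidableEq V] [Fintype E] [DecidableEq E] (src dst : E → V)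
    (f : E → ℤ) (h1 : IsFlow src dst f) (h2 : ∀ e, 1 ≤ |f e| ∧ |f e| ≤ 4) (q : ℕ) (hq : 5 ≤ q) :
    0 < bondCharPoly src dst q :=
  Pool.Agent.TH362.FP.chr_pos src dst f h2 h1 q hq

/-- **Theorem.** Let `G` be a finite multigraph (loops and parallel edges allowed), given by the
ends `src e`, `dst e` of each edge `e`, without an edge cut consisting of exactly one edge. Suppose
that no graph `H` of girth at least twelve with the spanning tree `T` (`Fam H`) is an induced minor of
`G` (`IndMin H src dst`). Then `G` has an integer flow with values in `{±1, ±2, ±3, ±4}`, and the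
characteristic polynomial of the bond matroid of `G` is positive at all integers `q ≥ 5`. -/
theorem result :
    ∀ (V E : Type) [Fintype V] [DecidableEq V] [Fintype E] [DecidableEq E] (src dst : E → V),
      (∀ H : SimpleGraph Address, Fam H → ¬ IndMin H src dst) →
      (∀ Y : Finset V, (boundary src dst Y).card ≠ 1) →
      (∃ f : E → ℤ, IsFlow src dst f ∧ ∀ e, 1 ≤ |f e| ∧ |f e| ≤ 4) ∧
      ∀ q : ℕ, 5 ≤ q → 0 < bondCharPoly src dst q := by
  intro V E _ _ _ _ src dst h hb
  have hfl := flow_of_no_indMin Pool.Agent.Y335.FL.contract_all src dst h
    (fun Y _ => by rw [Finset.sdiff_empty]; exact hb Y)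
  obtain ⟨F, hF, hF0⟩ := int_flow src dst (nzf src dst hfl)
  have hF1 := (isFlow_iff src dst F).mpr hF0
  exact ⟨⟨F, hF1, hF⟩, fun q hq => charPoly_pos src dst F hF1 hF q hq⟩

/-- The complete cubic tree of radius five (the vertices of `T` at distance at most five from one of
its two central vertices) is an induced minor. -/
def HasInducedBall (src dst : E → V) : Prop :=
  ∃ β : V → Option Address, (∀ t, InBall t → (∃ v, β v = some t) ∧ ∀ X : V → Prop,
      (∃ v, X v ∧ β v = some t) → (∃ v, ¬ X v ∧ β v = some t) →
      ∃ e, Jo src dst β t t e ∧ ¬ (X (src e) ↔ X (dst e))) ∧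
    ∀ t t', InBall t → InBall t' → t ≠ t' →
      ((TreeAdj t t' ∨ TreeAdj t' t) ↔ ∃ e, Jo src dst β t t' e)

/-- The special case of the graphs without an induced minor isomorphic to the complete cubic tree of
radius five. -/
theorem inducedBall [Fintype V] [DecidableEq V] [Fintype E] [DecidableEq E] (src dst : E → V)
    (h : ¬ HasInducedBall src dst)
    (hb : ∀ Y : Finset V, (boundary src dst Y).card ≠ 1) :
    (∃ f : E → ℤ, IsFlow src dst f ∧ ∀ e, 1 ≤ |f e| ∧ |f e| ≤ 4) ∧
      ∀ q : ℕ, 5 ≤ q → 0 < bondCharPoly src dst q := by
  refine result V E src dst (fun H hH h' => h ?_) hb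
  obtain ⟨β, h1, h2⟩ := h'
  refine ⟨β, fun t _ => h1 t, fun t t' ht ht' hne => ?_⟩
  rw [← ball_adj hH ht ht']
  exact h2 t t' hne

end Pool.Agent.Results.MP_974d84_co.ExcludedInducedTree
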