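import Mathlib
import Pool.Agent.TH497.PW.IntFlow
import Pool.Agent.TH362.FP.Pos
import Pool.Agent.Y335.FL.Main
import Pool.Agent.K3h83.FM.Cls

set_option autoImplicit false

/-!
# Nowhere-zero 5-flows in graphs with matching number at most 62 (MP_974d84_co)

Let `G` be a bridgeless multigraph which does not have 63 pairwise disjoint connected vertex sets,
each of which contains at least two vertices of degree at least three; for example, let every
matching of `G` have at most 62 edges. Then `G` has a nowhere-zero 5-flow, and the characteristic
polynomial of its bond matroid is positive at all integers `q ≥ 5`. The order, the degrees and the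
connectivity are arbitrary. Tutte's 12-cage, which has girth twelve and is therefore not excluded by
the reduction used here, has a perfect matching with 63 edges.

Proof. The class is closed under contractions. Let `G` be a counterexample with as few edges as
possible. Circuits with at most eleven edges can be contracted (library `Y335/FL`), and so can one
of two edges which form a cut; hence `G` has girth at least twelve and all degrees are at least three
(apart from isolated vertices). Let `T` be the set of the vertices of `G` which are not isolated. If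
`G` has no matching with 63 edges then, by the Tutte-Berge formula, there are `A ⊆ T` and more than
`|A| + |T| - 126` pairwise disjoint odd subsets of `T \ A` without outgoing edges to vertices outside
`A`. Let `A` be nonempty (the other case is easy), `r ∈ A`, and follow three edges at `r` and then
always two new edges, up to the distance six from `r`: one gets a subgraph `H` with 189 edges and
maximum degree three, which is a tree up to the identification of end vertices of different
branches. Give the weight 2 to the vertices in `A`, the weight 0 to the odd sets with one element,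
and the weight 1 to the other vertices. The two ends of an edge have weights with sum at least 2, so
the sum of all weights is at least `2 * 189 / 3 = 126`. For every odd set `K` with more than one
element there is an additional gain of one: the number of the edges of `H` between `K` and `A` plus
the sum over the vertices in `K` of the difference between three and the degree in `H` is at least
three (go from a vertex of `K` up and down the tree). So `2 |A| + ∑ (|O| - 1) + ...` is at least 126,
a contradiction.
-/

namespace Pool.Agent.Results.MP_974d84_co.MatchingNumber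

open Pool.Agent.TH497.PW

variable {V E : Type}

/-- The edges with exactly one end in `X`. -/
def boundary [DecidableEq V] [Fintype E] (src dst : E → V) (X : Finset V) : Finset E :=
  Finset.univ.filter (fun e => ¬ (src e ∈ X ↔ dst e ∈ X))

/-- Kirchhoff's law. -/
def IsFlow [DecidableEq V] [Fintype E] (src dst : E → V) (f : E → ℤ) : Prop :=
  ∀ v : V, ∑ e ∈ Finset.univ.filter (fun e => src e = v), f e
    = ∑ e ∈ Finset.univ.filter (fun e => dst e = v), f e

/-- The degree of `v`; loops are not counted. -/
def properDegree [DecidableEq V] [Fintype E] (src dst : E → V) (v : V) : ℕ :=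
  (Finset.univ.filter (fun e => src e ≠ dst e ∧ (src e = v ∨ dst e = v))).card

/-- The vertices in `B` span a connected subgraph: for every set `X` of vertices which contains some
but not all elements of `B`, an edge with both ends in `B` has exactly one end in `X`. -/
def ConnectedSet (src dst : E → V) (B : Finset V) : Prop :=
  ∀ X : Set V, (∃ v ∈ B, v ∈ X) → (∃ v ∈ B, v ∉ X) →
    ∃ e, src e ∈ B ∧ dst e ∈ B ∧ ¬ (src e ∈ X ↔ dst e ∈ X)

/-- There are `n` pairwise disjoint connected vertex sets, each of which contains at least two
vertices of degree at least three. -/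
def HasPacking [DecidableEq V] [Fintype E] (src dst : E → V) (n : ℕ) : Prop :=
  ∃ B : Fin n → Finset V, (∀ i j, i ≠ j → Disjoint (B i) (B j)) ∧
    ∀ i, ConnectedSet src dst (B i) ∧ 2 ≤ ((B i).filter (fun v => 3 ≤ properDegree src dst v)).card

/-- `M` is a matching: its edges are not loops and no two of them have a common end. -/
def IsMatching (src dst : E → V) (M : Finset E) : Prop :=
  (∀ e ∈ M, src e ≠ dst e) ∧ ∀ e ∈ M, ∀ e' ∈ M, e ≠ e' →
    src e ≠ src e' ∧ src e ≠ dst e' ∧ dst e ≠ src e' ∧ dst e ≠ dst e'

/-- The number of the components of the graph with the vertices `V` and the edges `A`. -/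
noncomputable def components (src dst : E → V) (A : Finset E) : ℕ :=
  Nat.card (SimpleGraph.fromRel
    (fun u v : V => ∃ e ∈ A, src e = u ∧ dst e = v)).ConnectedComponent

/-- The rank of `A` in the cycle matroid of the graph. -/
noncomputable def cycleRank [Fintype V] (src dst : E → V) (A : Finset E) : ℕ :=
  Fintype.card V - components src dst A

/-- The rank of `A` in the bond matroid of the graph (the dual of the cycle matroid). -/
noncomputable def bondRank [Fintype V] [Fintype E] [DecidableEq E] (src dst : E → V)
    (A : Finset E) : ℕ :=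
  A.card + cycleRank src dst Aᶜ - cycleRank src dst Finset.univ

/-- The characteristic polynomial of the bond matroid at the integer `x`. -/
noncomputable def bondCharPoly [Fintype V] [Fintype E] [DecidableEq E] (src dst : E → V)
    (x : ℤ) : ℤ :=
  ∑ A : Finset E, (-1) ^ A.card * x ^ (bondRank src dst Finset.univ - bondRank src dst A)

theorem isFlow_iff [DecidableEq V] [Fintype E] (src dst : E → V) (f : E → ℤ) :
    IsFlow src dst f ↔
      ∀ v, ∑ e, f e * ((if src e = v then 1 else 0) - (if dst e = v then 1 else 0)) = 0 := by
  unfold IsFlow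
  refine forall_congr' fun v => ?_
  rw [Finset.sum_filter, Finset.sum_filter, ← sub_eq_zero, ← Finset.sum_sub_distrib]
  have : ∀ e, (if src e = v then f e else 0) - (if dst e = v then f e else 0)
      = f e * ((if src e = v then 1 else 0) - (if dst e = v then 1 else 0)) := by
    intro e
    by_cases h1 : src e = v <;> by_cases h2 : dst e = v <;> simp [h1, h2]
  rw [Finset.sum_congr rfl (fun e _ => this e)]

theorem nzf [Fintype V] [DecidableEq V] [Fintype E] [DecidableEq E] (src dst : E → V)
    (h : Pool.Agent.TH676.Z.FlowOn src dst ∅ ∅) : NZF src dst := by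
  obtain ⟨f, h1, _, h3⟩ := h
  refine ⟨f, fun e => h3 e (Finset.notMem_empty _) (Finset.notMem_empty _), fun x => ?_⟩
  rw [← h1 x]
  unfold Pool.Agent.TH676.Z.bd
  refine Finset.sum_congr rfl fun e _ => ?_
  unfold ic
  by_cases h4 : src e = x <;> by_cases h5 : dst e = x <;> simp [h4, h5]

theorem charPoly_pos [Fintype V] [DecidableEq V] [Fintype E] [DecidableEq E] (src dst : E → V)
    (f : E → ℤ) (h1 : IsFlow src dst f) (h2 : ∀ e, 1 ≤ |f e| ∧ |f e| ≤ 4) (q : ℕ) (hq : 5 ≤ q) :
    0 < bondCharPoly src dst q :=
  Pool.Agent.TH362.FP.chr_pos src dst f h2 h1 q hq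

theorem packing_of [Fintype V] [DecidableEq V] [Fintype E] [DecidableEq E] (src dst : E → V)
    (h : Pool.Agent.K3h83.FM.Pk src dst) : HasPacking src dst 63 := by
  classical
  obtain ⟨β, h⟩ := h
  refine ⟨fun i => Finset.univ.filter (fun v => β v = some i), ?_, ?_⟩
  · intro i j hij
    rw [Finset.disjoint_left]
    intro v h1 h2
    rw [Finset.mem_filter] at h1 h2
    exact hij (Option.some_injective _ (h1.2.symm.trans h2.2))
  · intro i
    obtain ⟨h1, x, y, hxy, hx, hy, dx, dy⟩ := h i
    refine ⟨?_, ?_⟩
    · rintro X ⟨v, hv, hvX⟩ ⟨v', hv', hvX'⟩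
      rw [Finset.mem_filter] at hv hv'
      obtain ⟨e, a1, a2, a3⟩ := h1 (fun v => v ∈ X) ⟨v, hvX, hv.2⟩ ⟨v', hvX', hv'.2⟩
      exact ⟨e, by simp [a1], by simp [a2], a3⟩
    · refine Finset.one_lt_card.2 ⟨x, ?_, y, ?_, hxy⟩
      · rw [Finset.mem_filter, Finset.mem_filter]
        exact ⟨⟨Finset.mem_univ _, hx⟩, dx⟩
      · rw [Finset.mem_filter, Finset.mem_filter]
        exact ⟨⟨Finset.mem_univ _, hy⟩, dy⟩

/-- **Theorem.** Let `G` be a finite multigraph (loops and parallel edges allowed), given by the
ends `src e`, `dst e` of each edge `e`, without an edge cut consisting of exactly one edge, and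
without 63 pairwise disjoint connected vertex sets each of which contains two vertices of degree at
least three. Then `G` has an integer flow with values in `{±1, ±2, ±3, ±4}`, and the
characteristic polynomial of the bond matroid of `G` is positive at all integers `q ≥ 5`. -/
theorem result :
    ∀ (V E : Type) [Fintype V] [DecidableEq V] [Fintype E] [DecidableEq E] (src dst : E → V),
      ¬ HasPacking src dst 63 →
      (∀ Y : Finset V, (boundary src dst Y).card ≠ 1) →
      (∃ f : E → ℤ, IsFlow src dst f ∧ ∀ e, 1 ≤ |f e| ∧ |f e| ≤ 4) ∧
      ∀ q : ℕ, 5 ≤ q → 0 < bondCharPoly src dst q := by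
  intro V E _ _ _ _ src dst h hb
  have hfl := Pool.Agent.K3h83.FM.flow_of_no_pack Pool.Agent.Y335.FL.contract_all src dst
    (fun h' => h (packing_of src dst h'))
    (fun Y _ => by rw [Finset.sdiff_empty]; exact hb Y)
  obtain ⟨F, hF, hF0⟩ := int_flow src dst (nzf src dst hfl)
  have hF1 := (isFlow_iff src dst F).mpr hF0
  exact ⟨⟨F, hF1, hF⟩, fun q hq => charPoly_pos src dst F hF1 hF q hq⟩

/-- The special case of the graphs in which every matching has at most 62 edges. -/
theorem matchingNumber [Fintype V] [DecidableEq V] [Fintype E] [DecidableEq E] (src dst : E → V)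
    (hM : ∀ M : Finset E, IsMatching src dst M → M.card ≤ 62)
    (hb : ∀ Y : Finset V, (boundary src dst Y).card ≠ 1) :
    (∃ f : E → ℤ, IsFlow src dst f ∧ ∀ e, 1 ≤ |f e| ∧ |f e| ≤ 4) ∧
      ∀ q : ℕ, 5 ≤ q → 0 < bondCharPoly src dst q := by
  refine result V E src dst ?_ hb
  rintro ⟨B, hB1, hB2⟩
  have hed : ∀ i, ∃ e, src e ∈ B i ∧ dst e ∈ B i ∧ src e ≠ dst e := by
    intro i
    obtain ⟨x, hx, y, hy, hxy⟩ := Finset.one_lt_card.1 (hB2 i).2
    obtain ⟨e, a1, a2, a3⟩ := (hB2 i).1 {x} ⟨x, (Finset.mem_filter.1 hx).1, rfl⟩
      ⟨y, (Finset.mem_filter.1 hy).1, fun h => hxy h.symm⟩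
    exact ⟨e, a1, a2, fun h => a3 (by rw [h])⟩
  choose ed h1 h2 h3 using hed
  have hd : ∀ i j, i ≠ j → ∀ u ∈ B i, ∀ v ∈ B j, u ≠ v := by
    rintro i j hij u hu v hv rfl
    exact (Finset.disjoint_left.1 (hB1 i j hij)) hu hv
  have hinj : Function.Injective ed := by
    intro i j hij
    by_contra hne
    exact hd i j hne _ (h1 i) _ (h1 j) (by rw [hij])
  have := hM (Finset.univ.image ed) ⟨?_, ?_⟩
  · rw [Finset.card_image_of_injective _ hinj, Finset.card_univ, Fintype.card_fin] at this
    omega
  · intro e he
    obtain ⟨i, -, rfl⟩ := Finset.mem_image.1 he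
    exact h3 i
  · intro e he e' he' hne
    obtain ⟨i, -, rfl⟩ := Finset.mem_image.1 he
    obtain ⟨j, -, rfl⟩ := Finset.mem_image.1 he'
    have hij : i ≠ j := fun h => hne (by rw [h])
    exact ⟨hd i j hij _ (h1 i) _ (h1 j), hd i j hij _ (h1 i) _ (h2 j),
      hd i j hij _ (h2 i) _ (h1 j), hd i j hij _ (h2 i) _ (h2 j)⟩

end Pool.Agent.Results.MP_974d84_co.MatchingNumber
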