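import Mathlib
import Pool.Agent.TH497.PW.IntFlow
import Pool.Agent.TH362.FP.Pos
import Pool.Agent.K3h76.OV.Cub

set_option autoImplicit false

/-!
# Nowhere-zero 5-flows: only vertices of odd degree count (MP_974d84_co)

Let `G` be a bridgeless multigraph.  Suppose that there are sets of edges `C 0, ..., C (m - 1)`, each
with at most eleven edges outside the union of the earlier ones and without a bridge modulo this
union (for example circuits with at most eleven new edges), such that among the components of the
graph with the edges `F = ⋃ C i` those with an odd number of boundary edges are few in the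
following sense: there is a set `S` of components such that `2 a + |S| ≤ 125` whenever `a` such
components outside `S` are pairwise not joined by an edge.  Then `G` has a nowhere-zero 5-flow, and
the characteristic polynomial of its bond matroid is positive at all integers `q ≥ 5`.  The same
holds for all bridgeless graphs which can be decomposed by edge cuts with at most three edges into
such graphs (`result`).

Special cases: all bridgeless multigraphs with at most 125 (that is, at most 124) vertices of odd
degree (`oddVertices`); all bridgeless cubic graphs with pairwise disjoint circuits of length at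
most eleven such that the number of the odd ones among them plus the number of the vertices which
are not covered is at most 125 (`shortCircuits`).

Proof.  Let `m = 0`.  In a bridgeless graph two edges at a vertex `v` of degree at least four can be
moved from `v` to a new vertex such that the graph remains bridgeless: otherwise every pair of edges
at `v` is in a cut with three edges, and a maximal such cut can be uncrossed (by submodularity,
posimodularity and parity).  So all vertices of even degree may be assumed to have degree at most
two, while the vertices of odd degree, their degrees and the edges between them do not change; the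
starting library `Y358/IN` treats these graphs.  In general, the components of `F` are
contracted, and the flow of the quotient is lifted along the chain with the library `Y335/FL`
(contraction of circuits with at most eleven edges).
-/

namespace Pool.Agent.Results.MP_974d84_co.OddVertices

open Pool.Agent.TH497.PW Pool.Agent.K3h76.OV

variable {V E : Type}

/-- The edges with exactly one end in `X`. -/
def boundary [DecidableEq V] [Fintype E] (src dst : E → V) (X : Finset V) : Finset E :=
  Finset.univ.filter (fun e => ¬ (src e ∈ X ↔ dst e ∈ X))

/-- Kirchhoff's law. -/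
def IsFlow [DecidableEq V] [Fintype E] (src dst : E → V) (f : E → ℤ) : Prop :=
  ∀ v : V, ∑ e ∈ Finset.univ.filter (fun e => src e = v), f e
    = ∑ e ∈ Finset.univ.filter (fun e => dst e = v), f e

/-- The degree of `v`; loops are not counted. -/
def properDegree [DecidableEq V] [Fintype E] (src dst : E → V) (v : V) : ℕ :=
  (Finset.univ.filter (fun e => src e ≠ dst e ∧ (src e = v ∨ dst e = v))).card

/-- The number of the components of the graph with the vertices `V` and the edges `A`. -/
noncomputable def components (src dst : E → V) (A : Finset E) : ℕ :=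
  Nat.card (SimpleGraph.fromRel
    (fun u v : V => ∃ e ∈ A, src e = u ∧ dst e = v)).ConnectedComponent

/-- The rank of `A` in the cycle matroid of the graph. -/
noncomputable def cycleRank [Fintype V] (src dst : E → V) (A : Finset E) : ℕ :=
  Fintype.card V - components src dst A

/-- The rank of `A` in the bond matroid of the graph (the dual of the cycle matroid). -/
noncomputable def bondRank [Fintype V] [Fintype E] [DecidableEq E] (src dst : E → V)
    (A : Finset E) : ℕ :=
  A.card + cycleRank src dst Aᶜ - cycleRank src dst Finset.univ

/-- The characteristic polynomial of the bond matroid at the integer `x`. -/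
noncomputable def bondCharPoly [Fintype V] [Fintype E] [DecidableEq E] (src dst : E → V)
    (x : ℤ) : ℤ :=
  ∑ A : Finset E, (-1) ^ A.card * x ^ (bondRank src dst Finset.univ - bondRank src dst A)

/-- The component of `x` in the graph with the vertices `V` and the edges `F`. -/
noncomputable def component [Fintype V] (src dst : E → V) (F : Finset E) (x : V) : Finset V :=
  open Classical in Finset.univ.filter (fun y =>
    Relation.EqvGen (fun a b => ∃ e ∈ F, src e = a ∧ dst e = b) x y)

/-- The union of the sets `C j` with `j < i`. -/
def earlier [DecidableEq E] {m : ℕ} (C : Fin m → Finset E) (i : Fin m) : Finset E :=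
  (Finset.univ.filter (fun j => j < i)).biUnion C

/-- There are sets of edges `C i`, each with at most eleven edges outside the earlier ones and
without a bridge modulo the earlier ones, and a set `S` of sets of vertices such that `2 a + |S| ≤
125` for all numbers `a` of pairwise not adjacent components of the graph with the edges `⋃ C i`
which are not in `S` and have an odd number of boundary edges. -/
def Small [Fintype V] [DecidableEq V] [Fintype E] [DecidableEq E] (src dst : E → V) : Prop :=
  ∃ (m : ℕ) (C : Fin m → Finset E) (S : Finset (Finset V)),
    (∀ i, (C i \ earlier C i).card ≤ 11) ∧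
    (∀ i, ∀ Y : Finset V, Disjoint (boundary src dst Y) (earlier C i) →
      (boundary src dst Y ∩ C i).card ≠ 1) ∧
    ∀ I : Finset (Finset V),
      (∀ X ∈ I, X ∉ S ∧ (∃ x, X = component src dst (Finset.univ.biUnion C) x) ∧
        Odd (boundary src dst X).card) →
      (∀ X ∈ I, ∀ Y ∈ I, X ≠ Y → ∀ e, ¬ (src e ∈ X ∧ dst e ∈ Y)) →
      2 * I.card + S.card ≤ 125

/-- `y` for the elements of `Y`, and `x` for the other vertices `x` -/
def collapse [DecidableEq V] (Y : Finset V) (y x : V) : V := if x ∈ Y then y else x

/-- The graphs which can be decomposed by cuts with at most three edges into graphs which satisfy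
`Small`: for the cut between `Y` and its complement the two graphs are obtained by the
identification of all vertices in `Y`, and of all vertices outside `Y`. -/
inductive Decomposable [Fintype V] [DecidableEq V] [Fintype E] [DecidableEq E] :
    (E → V) → (E → V) → Prop
  | small (src dst : E → V) : Small src dst → Decomposable src dst
  | cut (src dst : E → V) (Y : Finset V) (y z : V) : y ∈ Y → z ∉ Y →
      (boundary src dst Y).card ≤ 3 →
      Decomposable (collapse Y y ∘ src) (collapse Y y ∘ dst) →
      Decomposable (collapse Yᶜ z ∘ src) (collapse Yᶜ z ∘ dst) → Decomposable src dst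

theorem isFlow_iff [DecidableEq V] [Fintype E] (src dst : E → V) (f : E → ℤ) :
    IsFlow src dst f ↔
      ∀ v, ∑ e, f e * ((if src e = v then 1 else 0) - (if dst e = v then 1 else 0)) = 0 := by
  unfold IsFlow
  refine forall_congr' fun v => ?_
  rw [Finset.sum_filter, Finset.sum_filter, ← sub_eq_zero, ← Finset.sum_sub_distrib]
  have : ∀ e, (if src e = v then f e else 0) - (if dst e = v then f e else 0)
      = f e * ((if src e = v then 1 else 0) - (if dst e = v then 1 else 0)) := by
    intro e
    by_cases h1 : src e = v <;> by_cases h2 : dst e = v <;> simp [h1, h2]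
  rw [Finset.sum_congr rfl (fun e _ => this e)]

theorem nzf [Fintype V] [DecidableEq V] [Fintype E] [DecidableEq E] (src dst : E → V)
    (h : Pool.Agent.TH676.Z.FlowOn src dst ∅ ∅) : NZF src dst := by
  obtain ⟨f, h1, _, h3⟩ := h
  refine ⟨f, fun e => h3 e (Finset.notMem_empty _) (Finset.notMem_empty _), fun x => ?_⟩
  rw [← h1 x]
  unfold Pool.Agent.TH676.Z.bd
  refine Finset.sum_congr rfl fun e _ => ?_
  unfold ic
  by_cases h4 : src e = x <;> by_cases h5 : dst e = x <;> simp [h4, h5]

theorem charPoly_pos [Fintype V] [DecidableEq V] [Fintype E] [DecidableEq E] (src dst : E → V)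
    (f : E → ℤ) (h1 : IsFlow src dst f) (h2 : ∀ e, 1 ≤ |f e| ∧ |f e| ≤ 4) (q : ℕ) (hq : 5 ≤ q) :
    0 < bondCharPoly src dst q :=
  Pool.Agent.TH362.FP.chr_pos src dst f h2 h1 q hq

theorem flow_small [Fintype V] [DecidableEq V] [Fintype E] [DecidableEq E] (src dst : E → V)
    (hb : Pool.Agent.TH676.Z.Br src dst ∅ ∅) (h : Small src dst) :
    Pool.Agent.TH676.Z.FlowOn src dst ∅ ∅ := by
  obtain ⟨m, C, S, h1, h2, h3⟩ := h
  exact chain src dst C h1 h2 (flow_quot src dst _ S hb h3)

theorem flow_dec [Fintype V] [DecidableEq V] [Fintype E] [DecidableEq E] (src dst : E → V)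
    (h : Decomposable src dst) : Pool.Agent.TH676.Z.Br src dst ∅ ∅ →
    Pool.Agent.TH676.Z.FlowOn src dst ∅ ∅ := by
  induction h with
  | small src dst h => exact fun hb => flow_small src dst hb h
  | cut src dst Y y z hy hz hc _ _ ih1 ih2 =>
    exact fun hb => glue hb hy hz hc (ih1 (br_comp hb _)) (ih2 (br_comp hb _))

/-- Every bridgeless graph which can be decomposed by cuts with at most three edges into graphs
satisfying `Small` has a nowhere-zero 5-flow, and the characteristic polynomial of its bond matroid
is positive at the integers `q ≥ 5`. -/
theorem result :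
    ∀ (V E : Type) [Fintype V] [DecidableEq V] [Fintype E] [DecidableEq E] (src dst : E → V),
      Decomposable src dst → (∀ Y : Finset V, (boundary src dst Y).card ≠ 1) →
      (∃ f : E → ℤ, IsFlow src dst f ∧ ∀ e, 1 ≤ |f e| ∧ |f e| ≤ 4) ∧
      ∀ q : ℕ, 5 ≤ q → 0 < bondCharPoly src dst q := by
  intro V E _ _ _ _ src dst hd hb
  have hfl := flow_dec src dst hd (fun Y _ => by rw [Finset.sdiff_empty]; exact hb Y)
  obtain ⟨F, hF, hF0⟩ := int_flow src dst (nzf src dst hfl)
  have hF1 := (isFlow_iff src dst F).mpr hF0
  exact ⟨⟨F, hF1, hF⟩, fun q hq => charPoly_pos src dst F hF1 hF q hq⟩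

/-- If few components are odd then the graph is small. -/
theorem small_of [Fintype V] [DecidableEq V] [Fintype E] [DecidableEq E] (src dst : E → V)
    {m : ℕ} {C : Fin m → Finset E} (h1 : ∀ i, (C i \ earlier C i).card ≤ 11)
    (h2 : ∀ i, ∀ Y : Finset V, Disjoint (boundary src dst Y) (earlier C i) →
      (boundary src dst Y ∩ C i).card ≠ 1)
    (h3 : ((Finset.univ.image (component src dst (Finset.univ.biUnion C))).filter
      (fun X => Odd (boundary src dst X).card)).card ≤ 125) : Small src dst := by
  refine ⟨m, C, (Finset.univ.image (component src dst (Finset.univ.biUnion C))).filter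
      (fun X => Odd (boundary src dst X).card), h1, h2, fun I hI _ => ?_⟩
  have h4 : I = ∅ := by
    rw [Finset.eq_empty_iff_forall_notMem]
    intro X hX
    obtain ⟨a, ⟨x, rfl⟩, c⟩ := hI X hX
    exact a (Finset.mem_filter.2 ⟨Finset.mem_image_of_mem _ (Finset.mem_univ x), c⟩)
  rw [h4, Finset.card_empty]
  omega

/-- All bridgeless multigraphs with at most 125 vertices of odd degree. -/
theorem oddVertices :
    ∀ (V E : Type) [Fintype V] [DecidableEq V] [Fintype E] [DecidableEq E] (src dst : E → V),
      (Finset.univ.filter (fun v => Odd (properDegree src dst v))).card ≤ 125 →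
      (∀ Y : Finset V, (boundary src dst Y).card ≠ 1) →
      (∃ f : E → ℤ, IsFlow src dst f ∧ ∀ e, 1 ≤ |f e| ∧ |f e| ≤ 4) ∧
      ∀ q : ℕ, 5 ≤ q → 0 < bondCharPoly src dst q := by
  classical
  intro V E _ _ _ _ src dst ho hb
  refine result V E src dst (Decomposable.small _ _ (small_of src dst (m := 0)
    (C := fun _ => ∅) (fun i => i.elim0) (fun i => i.elim0) ?_)) hb
  have heqv : ∀ x y, Relation.EqvGen (fun a b => ∃ e ∈ Finset.univ.biUnion
      (fun _ : Fin 0 => (∅ : Finset E)), src e = a ∧ dst e = b) x y → y = x := by
    intro x y h
    induction h with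
    | rel a b hab =>
      obtain ⟨e, he, _⟩ := hab
      simp at he
    | refl a => rfl
    | symm a b _ ih => exact ih.symm
    | trans a b c _ _ i1 i2 => exact i2.trans i1
  have hcomp : ∀ x, component src dst (Finset.univ.biUnion
      (fun _ : Fin 0 => (∅ : Finset E))) x = {x} := by
    intro x
    ext y
    rw [Finset.mem_singleton]
    refine (mem_cmp (src := src) (dst := dst)).trans ⟨fun h => heqv x y h, fun h => ?_⟩
    rw [h]
    exact Relation.EqvGen.refl _
  refine le_trans (Finset.card_le_card_of_injOn (fun X => X) ?_ (fun _ _ _ _ h => h))
    ((Finset.card_image_le (f := fun v => ({v} : Finset V))).trans ho)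
  intro X hX
  rw [Finset.mem_coe, Finset.mem_filter, Finset.mem_image] at hX
  obtain ⟨⟨x, _, rfl⟩, hodd⟩ := hX
  rw [hcomp] at hodd ⊢
  rw [Finset.mem_coe, Finset.mem_image]
  refine ⟨x, Finset.mem_filter.2 ⟨Finset.mem_univ _, ?_⟩, rfl⟩
  have h : boundary src dst {x} =
      Finset.univ.filter (fun e => src e ≠ dst e ∧ (src e = x ∨ dst e = x)) := by
    ext e
    unfold boundary
    rw [Finset.mem_filter, Finset.mem_filter, Finset.mem_singleton, Finset.mem_singleton]
    constructor
    · rintro ⟨h1, h2⟩
      refine ⟨h1, fun h3 => h2 (by rw [h3]), ?_⟩
      by_contra h4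
      push Not at h4
      exact h2 ⟨fun h5 => absurd h5 h4.1, fun h5 => absurd h5 h4.2⟩
    · rintro ⟨h1, h2, h3⟩
      refine ⟨h1, fun h4 => h2 ?_⟩
      rcases h3 with h3 | h3
      · rw [h3, h4.1 h3]
      · rw [h3, h4.2 h3]
  rw [h] at hodd
  exact hodd

/-- Bridgeless cubic graphs: let every vertex be in no edge of `F` or in two edges of `F`, and let
every component of the graph with the edges `F` have at most eleven vertices. If at most 125 of
these components have an odd number of vertices, then there is a nowhere-zero 5-flow. -/
theorem shortCircuits :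
    ∀ (V E : Type) [Fintype V] [DecidableEq V] [Fintype E] [DecidableEq E] (src dst : E → V)
      (F : Finset E), (∀ v, properDegree src dst v = 3) → (∀ e ∈ F, src e ≠ dst e) →
      (∀ v, (F.filter (fun e => src e = v ∨ dst e = v)).card = 0 ∨
        (F.filter (fun e => src e = v ∨ dst e = v)).card = 2) →
      (∀ x, (component src dst F x).card ≤ 11) →
      ((Finset.univ.image (component src dst F)).filter (fun X => Odd X.card)).card ≤ 125 →
      (∀ Y : Finset V, (boundary src dst Y).card ≠ 1) →
      (∃ f : E → ℤ, IsFlow src dst f ∧ ∀ e, 1 ≤ |f e| ∧ |f e| ≤ 4) ∧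
      ∀ q : ℕ, 5 ≤ q → 0 < bondCharPoly src dst q := by
  intro V E _ _ _ _ src dst F h3 hF hd h11 ho hb
  obtain ⟨m, C, hC1, hC2, hC3⟩ := cub_chain src dst F hF hd h11
  refine result V E src dst (Decomposable.small _ _ (small_of src dst (m := m)
    (C := C) hC1 (fun i Y _ => hC2 i Y) ?_)) hb
  rw [hC3]
  refine le_trans (Finset.card_le_card ?_) ho
  intro X hX
  rw [Finset.mem_filter] at hX ⊢
  exact ⟨hX.1, (odd_crs h3 X).1 hX.2⟩

end Pool.Agent.Results.MP_974d84_co.OddVertices
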