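import Mathlib
import Pool.Agent.TH497.PW.IntFlow
import Pool.Agent.TH362.FP.Pos
import Pool.Agent.Y335.FL.Main
import Pool.Agent.K3h16.SC.Main

set_option autoImplicit false

/-!
# Few pieces and short cycles (MP_974d84_co)

Let `G` be a bridgeless multigraph, `F` a set of edges which is built from the empty set by adding,
again and again, at most eleven edges without a bridge modulo the edges added before (for instance
the edges of a circuit with at most eleven edges in the graph obtained by contracting the edges
added before), and `X` a set of vertices which no edge of `F` leaves.  Let `s` be the number of the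
components of `(V, F)` in `X`.  Then `G` has a nowhere-zero 5-flow, and the characteristic
polynomial of its bond matroid is positive at all integers `q ≥ 5`, in each of two cases.

(1) The elements with at most eleven edges of the cycle space `Z(G - X)` over `GF(2)` and the
elements supported by `F` span a subspace of codimension at most `63 - 2 s` in `Z(G - X)`.

(2) `s ≤ 31` and `X` meets all induced circuits with at least twelve vertices.

For `F = ∅` the number `s` is the number of the vertices in `X`.  So all bridgeless graphs with a
set of at most 31 vertices which meets all induced circuits with at least twelve vertices have a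
nowhere-zero 5-flow, for instance those which become chordal by the deletion of 31 vertices; instead
of single vertices one can delete 31 pieces glued together from circuits with at most eleven edges,
of arbitrary size.  For Tutte's 12-cage the number 32 is the smallest possible for `s`.

Proof.  The sets in the construction of `F` can be contracted one after the other, by the theorem of
the library `Y335/FL` on circuits with at most eleven edges (and its extension `R926/SC` to graphs
without bridges which have at most eleven edges).  In case (1) one adds to `F` the supports of the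
short elements of `Z(G - X)`; they do not meet `X`, and so the components of `(V, F)` in `X` do not
change.  Every element of the cycle space of `G / F - X / F` lifts to an element of the cycle space
of `G`; the part of the lift outside `X` satisfies Kirchhoff's law, too, as the lifted element is
zero on all edges which leave `X` or lie inside and are not in `F`.  Hence the dimension of the
cycle space of `G / F - X / F` is at most the codimension in (1), and the class of the graphs with a
set of `s` vertices whose deletion leaves a cycle space of dimension at most `63 - 2 s` is known to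
have flows (library `Y335/FL`, from the girth of a minimal counterexample).  In case (2) every
element of `Z(G - X)` is a sum of elements with at most eleven edges (a circuit with a chord is the
sum of two shorter ones).
-/

namespace Pool.Agent.Results.MP_974d84_co.ShortCycleSpace

open Pool.Agent.TH497.PW

variable {V E : Type}

/-- The edges with exactly one end in `Y`. -/
def boundary [DecidableEq V] [Fintype E] (src dst : E → V) (Y : Finset V) : Finset E :=
  Finset.univ.filter (fun e => ¬ (src e ∈ Y ↔ dst e ∈ Y))

/-- Kirchhoff's law. -/
def IsFlow [DecidableEq V] [Fintype E] (src dst : E → V) (f : E → ℤ) : Prop :=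
  ∀ v : V, ∑ e ∈ Finset.univ.filter (fun e => src e = v), f e
    = ∑ e ∈ Finset.univ.filter (fun e => dst e = v), f e

/-- The edge sets which are built from the empty set by adding, again and again, a set `C` of at
most eleven edges which has no bridge modulo the set `F` built before: no cut without edges of `F`
contains exactly one edge of `C`. -/
inductive Built [DecidableEq V] [Fintype E] [DecidableEq E] (src dst : E → V) : Finset E → Prop
  | empty : Built src dst ∅
  | step (F C : Finset E) : Built src dst F → C.card ≤ 11 →
      (∀ Y : Finset V, Disjoint (boundary src dst Y) F → (boundary src dst Y ∩ C).card ≠ 1) →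
      Built src dst (F ∪ C)

/-- The number of the components of the graph with the vertices `V` and the edges `F` which contain
a vertex in `X`. -/
noncomputable def pieces (src dst : E → V) (F : Finset E) (X : Finset V) : ℕ :=
  Set.ncard ((SimpleGraph.fromRel
    (fun u v : V => ∃ e ∈ F, src e = u ∧ dst e = v)).connectedComponentMk '' (X : Set V))

/-- The cycle space over `GF(2)` of the graph with the vertices `V` and the edges `A`. -/
def cycleSpace [DecidableEq V] [Fintype E] (src dst : E → V) (A : Finset E) :
    Submodule (ZMod 2) (E → ZMod 2) where
  carrier := {x | (∀ e, e ∉ A → x e = 0) ∧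
    ∀ v : V, ∑ e ∈ Finset.univ.filter (fun e => src e = v), x e
      + ∑ e ∈ Finset.univ.filter (fun e => dst e = v), x e = 0}
  add_mem' := by
    rintro a b ⟨h1, h2⟩ ⟨h3, h4⟩
    refine ⟨fun e he => by rw [Pi.add_apply, h1 e he, h3 e he, add_zero], fun v => ?_⟩
    simp only [Pi.add_apply, Finset.sum_add_distrib]
    have := congrArg₂ (· + ·) (h2 v) (h4 v)
    simp only [add_zero] at this
    rw [← this]
    ring
  zero_mem' := ⟨fun _ _ => rfl, fun v => by simp⟩
  smul_mem' := by
    rintro c a ⟨h1, h2⟩
    refine ⟨fun e he => by rw [Pi.smul_apply, h1 e he, smul_zero], fun v => ?_⟩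
    simp only [Pi.smul_apply, smul_eq_mul, ← Finset.mul_sum]
    rw [← mul_add, h2 v, mul_zero]

/-- The edges of `G - X`; loops are disregarded. -/
def outside [DecidableEq V] [Fintype E] (src dst : E → V) (X : Finset V) : Finset E :=
  Finset.univ.filter (fun e => src e ≠ dst e ∧ src e ∉ X ∧ dst e ∉ X)

open Classical in
/-- The elements of the cycle space of `G - X` with at most eleven edges. -/
noncomputable def shortCycles [DecidableEq V] [Fintype E] (src dst : E → V) (X : Finset V) :
    Set (E → ZMod 2) :=
  {x | x ∈ cycleSpace src dst (outside src dst X) ∧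
    (Finset.univ.filter (fun e => x e ≠ 0)).card ≤ 11}

/-- There is an edge between `x` and `y`, and `x ≠ y`. -/
def Adjacent (src dst : E → V) (x y : V) : Prop :=
  x ≠ y ∧ ∃ e, (src e = x ∧ dst e = y) ∨ (src e = y ∧ dst e = x)

/-- The vertices `v 0, ..., v (n - 1)` form an induced circuit of the underlying simple graph. -/
def IsInducedCircuit (src dst : E → V) {n : ℕ} [NeZero n] (v : Fin n → V) : Prop :=
  Function.Injective v ∧ (∀ i, Adjacent src dst (v i) (v (i + 1))) ∧
    ∀ i j, Adjacent src dst (v i) (v j) → j = i + 1 ∨ i = j + 1

/-- The number of the components of the graph with the vertices `V` and the edges `A`. -/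
noncomputable def components (src dst : E → V) (A : Finset E) : ℕ :=
  Nat.card (SimpleGraph.fromRel
    (fun u v : V => ∃ e ∈ A, src e = u ∧ dst e = v)).ConnectedComponent

/-- The rank of `A` in the cycle matroid of the graph. -/
noncomputable def cycleRank [Fintype V] (src dst : E → V) (A : Finset E) : ℕ :=
  Fintype.card V - components src dst A

/-- The rank of `A` in the bond matroid of the graph (the dual of the cycle matroid). -/
noncomputable def bondRank [Fintype V] [Fintype E] [DecidableEq E] (src dst : E → V)
    (A : Finset E) : ℕ :=
  A.card + cycleRank src dst Aᶜ - cycleRank src dst Finset.univ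

/-- The characteristic polynomial of the bond matroid at the integer `x`. -/
noncomputable def bondCharPoly [Fintype V] [Fintype E] [DecidableEq E] (src dst : E → V)
    (x : ℤ) : ℤ :=
  ∑ A : Finset E, (-1) ^ A.card * x ^ (bondRank src dst Finset.univ - bondRank src dst A)

theorem isFlow_iff [DecidableEq V] [Fintype E] (src dst : E → V) (f : E → ℤ) :
    IsFlow src dst f ↔
      ∀ v, ∑ e, f e * ((if src e = v then 1 else 0) - (if dst e = v then 1 else 0)) = 0 := by
  unfold IsFlow
  refine forall_congr' fun v => ?_
  rw [Finset.sum_filter, Finset.sum_filter, ← sub_eq_zero, ← Finset.sum_sub_distrib]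
  have : ∀ e, (if src e = v then f e else 0) - (if dst e = v then f e else 0)
      = f e * ((if src e = v then 1 else 0) - (if dst e = v then 1 else 0)) := by
    intro e
    by_cases h1 : src e = v <;> by_cases h2 : dst e = v <;> simp [h1, h2]
  rw [Finset.sum_congr rfl (fun e _ => this e)]

theorem nzf [Fintype V] [DecidableEq V] [Fintype E] [DecidableEq E] (src dst : E → V)
    (h : Pool.Agent.TH676.Z.FlowOn src dst ∅ ∅) : NZF src dst := by
  obtain ⟨f, h1, _, h3⟩ := h
  refine ⟨f, fun e => h3 e (Finset.notMem_empty _) (Finset.notMem_empty _), fun x => ?_⟩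
  rw [← h1 x]
  unfold Pool.Agent.TH676.Z.bd
  refine Finset.sum_congr rfl fun e _ => ?_
  unfold ic
  by_cases h4 : src e = x <;> by_cases h5 : dst e = x <;> simp [h4, h5]

theorem cycleSpace_eq [Fintype V] [DecidableEq V] [Fintype E] [DecidableEq E] (src dst : E → V)
    (A : Finset E) : cycleSpace src dst A = Pool.Agent.TH676.Z.ZF src dst A := by
  ext x
  have h2 : ∀ v, Pool.Agent.TH676.Z.bd2 src dst x v =
      ∑ e ∈ Finset.univ.filter (fun e => src e = v), x e
        + ∑ e ∈ Finset.univ.filter (fun e => dst e = v), x e := by
    intro v
    unfold Pool.Agent.TH676.Z.bd2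
    rw [Finset.sum_add_distrib, Finset.sum_filter, Finset.sum_filter]
  constructor
  · rintro ⟨h, h'⟩
    exact ⟨h, fun v => by rw [h2 v]; exact h' v⟩
  · rintro ⟨h, h'⟩
    exact ⟨h, fun v => by rw [← h2 v]; exact h' v⟩

theorem charPoly_pos [Fintype V] [DecidableEq V] [Fintype E] [DecidableEq E] (src dst : E → V)
    (f : E → ℤ) (h1 : IsFlow src dst f) (h2 : ∀ e, 1 ≤ |f e| ∧ |f e| ≤ 4) (q : ℕ) (hq : 5 ≤ q) :
    0 < bondCharPoly src dst q :=
  Pool.Agent.TH362.FP.chr_pos src dst f h2 h1 q hq

theorem built [Fintype V] [DecidableEq V] [Fintype E] [DecidableEq E] {src dst : E → V}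
    {F : Finset E} (h : Built src dst F) : Pool.Agent.K3h16.SC.Built src dst F := by
  induction h with
  | empty => exact .empty
  | step F C _ hC hB ih => exact .step F C ih hC hB

theorem reach_iff [Fintype V] [DecidableEq V] [Fintype E] [DecidableEq E] (src dst : E → V)
    (F : Finset E) (x y : V) :
    Relation.EqvGen (fun a b => ∃ e ∈ F, src e = a ∧ dst e = b) x y ↔
      (SimpleGraph.fromRel (fun u v : V => ∃ e ∈ F, src e = u ∧ dst e = v)).connectedComponentMk x =
      (SimpleGraph.fromRel
        (fun u v : V => ∃ e ∈ F, src e = u ∧ dst e = v)).connectedComponentMk y := by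
  rw [SimpleGraph.ConnectedComponent.eq]
  constructor
  · intro h
    induction h with
    | rel a b hab =>
      by_cases hne : a = b
      · rw [hne]
      · exact SimpleGraph.Adj.reachable ((SimpleGraph.fromRel_adj _ _ _).mpr ⟨hne, Or.inl hab⟩)
    | refl a => exact SimpleGraph.Reachable.refl _
    | symm a b _ ih => exact ih.symm
    | trans a b c _ _ i1 i2 => exact i1.trans i2
  · rintro ⟨p⟩
    induction p with
    | nil => exact Relation.EqvGen.refl _
    | cons h _ ih =>
      refine Relation.EqvGen.trans _ _ _ ?_ ih
      obtain ⟨-, h | h⟩ := (SimpleGraph.fromRel_adj _ _ _).mp h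
      · exact Relation.EqvGen.rel _ _ h
      · exact (Relation.EqvGen.rel _ _ h).symm _ _

theorem card_le_pieces [Fintype V] [DecidableEq V] [Fintype E] [DecidableEq E] (src dst : E → V)
    (F : Finset E) (X : Finset V) :
    (X.image (Pool.Agent.R926.SC.comp src dst F)).card ≤ pieces src dst F X := by
  classical
  unfold pieces
  rw [← Set.ncard_coe_finset]
  have h1 : ((X.image (Pool.Agent.R926.SC.comp src dst F) : Finset (Finset V)) : Set (Finset V)) =
      (fun c => Finset.univ.filter (fun y => (SimpleGraph.fromRel
        (fun u v : V => ∃ e ∈ F, src e = u ∧ dst e = v)).connectedComponentMk y = c)) ''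
        ((SimpleGraph.fromRel
          (fun u v : V => ∃ e ∈ F, src e = u ∧ dst e = v)).connectedComponentMk '' (X : Set V)) := by
    rw [Finset.coe_image, Set.image_image]
    refine Set.image_congr fun x _ => ?_
    ext y
    rw [Pool.Agent.R926.SC.mem_comp, reach_iff, Finset.mem_filter]
    simp only [Finset.mem_univ, true_and]
    exact eq_comm
  rw [h1]
  exact Set.ncard_image_le (Set.toFinite _)

theorem result :
    ∀ (V E : Type) [Fintype V] [DecidableEq V] [Fintype E] [DecidableEq E]
      (src dst : E → V) (F : Finset E) (X : Finset V), Built src dst F →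
      (∀ e ∈ F, (src e ∈ X ↔ dst e ∈ X)) →
      (Module.finrank (ZMod 2) (cycleSpace src dst (outside src dst X)) +
          2 * pieces src dst F X ≤
        63 + Module.finrank (ZMod 2)
          (Submodule.span (ZMod 2) (shortCycles src dst X) ⊔
            cycleSpace src dst (F ∩ outside src dst X) : Submodule (ZMod 2) (E → ZMod 2)) ∨
        (pieces src dst F X ≤ 31 ∧
          ∀ (k : ℕ) (v : Fin (k + 12) → V), IsInducedCircuit src dst v → ∃ i, v i ∈ X)) →
      (∀ Y : Finset V, (boundary src dst Y).card ≠ 1) →
      (∃ f : E → ℤ, IsFlow src dst f ∧ ∀ e, 1 ≤ |f e| ∧ |f e| ≤ 4) ∧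
      ∀ q : ℕ, 5 ≤ q → 0 < bondCharPoly src dst q := by
  intro V E _ _ _ _ src dst F X hF hX hcase hb
  have hbr : Pool.Agent.TH676.Z.Br src dst ∅ ∅ :=
    fun Y _ => by rw [Finset.sdiff_empty]; exact hb Y
  have hX' : Disjoint (Pool.Agent.TH676.Z.crs src dst X) F := by
    rw [Finset.disjoint_left]
    intro e he heF
    exact (Pool.Agent.R926.SC.mem_crs src dst X e).1 he (hX e heF)
  have hp := card_le_pieces src dst F X
  have hfl : Pool.Agent.TH676.Z.FlowOn src dst ∅ ∅ := by
    rcases hcase with h | ⟨h1, h2⟩
    · refine Pool.Agent.K3h16.SC.shortsX Pool.Agent.Y335.FL.contract_all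
        Pool.Agent.Y335.FL.circEx Pool.Agent.Y335.FL.cyc_all src dst F (built hF) X hX' ?_ hbr
      have h3 : (Pool.Agent.R926.SC.shorts src dst X : Set (E → ZMod 2)) =
          shortCycles src dst X := by
        ext x
        rw [Finset.mem_coe, Pool.Agent.R926.SC.mem_shorts]
        unfold shortCycles
        rw [cycleSpace_eq]
        unfold Pool.Agent.R926.SC.spt
        rw [show Pool.Agent.TH676.Z.ES src dst X = outside src dst X from rfl]
        constructor
        · rintro ⟨a, b⟩
          exact ⟨a, by convert b⟩
        · rintro ⟨a, b⟩
          exact ⟨a, by convert b⟩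
      rw [h3, show Pool.Agent.TH676.Z.ES src dst X = outside src dst X from rfl]
      rw [cycleSpace_eq, cycleSpace_eq] at h
      omega
    · refine Pool.Agent.K3h16.SC.inducedX Pool.Agent.Y335.FL.contract_all
        Pool.Agent.Y335.FL.circEx Pool.Agent.Y335.FL.cyc_all src dst F (built hF) X hX'
        (hp.trans h1) ?_ hbr
      intro k v ed hv hed hJ hvX hind
      by_contra hk
      obtain ⟨m, rfl⟩ : ∃ m, k = m + 10 := ⟨k - 10, by omega⟩
      have hI : IsInducedCircuit (n := m + 12) src dst v := by
        refine ⟨hv, fun i => ⟨fun h => ?_, ed i, hJ i⟩, fun i j hij => ?_⟩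
        · have h5 := hv h
          have h6 : (1 : Fin (m + 12)) = 0 := by
            have h7 : i + 0 = i + 1 := by rw [add_zero]; exact h5
            exact (add_left_cancel h7).symm
          have h8 := congrArg Fin.val h6
          simp at h8
        · obtain ⟨hne, e, he⟩ := hij
          rcases hind e i j he with h | h | h
          · exact absurd (congrArg v h) hne
          · exact Or.inl h
          · exact Or.inr h
      obtain ⟨i, hi⟩ := h2 m v hI
      exact hvX i hi
  obtain ⟨f, hf, hf0⟩ := int_flow src dst (nzf src dst hfl)
  have hf1 := (isFlow_iff src dst f).mpr hf0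
  exact ⟨⟨f, hf1, hf⟩, fun q hq => charPoly_pos src dst f hf1 hf q hq⟩

end Pool.Agent.Results.MP_974d84_co.ShortCycleSpace
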